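import Pool.Agent.V11211.SR2
import Pool.Agent.V11211.SR3
import Pool.Agent.V11211.SR4

set_option autoImplicit false

/-!
# MP_51f008_lc: a `Pi^1_1`-definable theory that proves its own `Pi^1_1`-soundness

The language `L_2` of second-order arithmetic, its two-sorted structures `Model`, the standard model
`std`, provability `Proves` (truth in all structures that satisfy the axioms), the axioms `ACA0`, the
Goedel numbers `Fm.code`, the arithmetizations `Arithmetization` (formulas `prf(p,x)`: p is a proof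
of x, `axIn(a,p)`: the axiom a is used in p, `isPi(x)`: x is a `Pi^1_1` sentence, and a `Pi^1_1`
truth predicate `tr(x)`, with the usual properties in the standard model and in `ACA_0`), the provability predicate
`Pr_τ(x) = ∃ p (prf(p,x) ∧ ∀ a (axIn(a,p) → τ(a)))`, the reflection sentence
`∀ x (isPi(x) ∧ Pr_τ(x) → tr(x))` and `Pi11Sound` are those of the starting results for MP_3ad381_lc
(`Pool/Agent/H986R3/SOADefs.lean`); `SigmaAC0` (the axioms of `Sigma^1_1-AC_0`) and `Pi11Defines` are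
in `Pool/Agent/V11211/SR1.lean` and `SR2.lean`.

Proof. Let `π` be the true `Pi^1_1` sentence saying that the `Pi^1_1` sentences which have a proof
without non-logical axioms are true, let `T` be a `Pi^1_1`-sound theory proving `π` with an
arithmetical definition `α(a)`, and let `τ(a)` be the formula (after Feferman)
`α(a) ∧ ∀ p ∀ x (prf(p,x) ∧ isPi(x) ∧ axIn(a,p) ∧ ∀ b (axIn(b,p) → α(b)) → tr(x))`.
It is `Pi^1_1`, it defines `T` in the standard model because `T` is `Pi^1_1`-sound, and `T` proves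
that `τ` is `Pi^1_1`-sound. For `T` one can take the axioms of `Sigma^1_1-AC_0` and `π`.
-/

namespace Pool.Agent.Results.MP_51f008_lc.OwnSoundness

open Pool.Agent.H986R3.SOA Pool.Agent.V11211.SR

/-- For every arithmetization of the metamathematics of `L_2`:
1. there is a recursively enumerable set `T` of sentences, true in the standard model (so
   `Pi^1_1`-sound), that proves all axioms of `Sigma^1_1-AC_0` and, for some `Pi^1_1` formula `τ`
   that defines `T` in the standard model, proves the `Pi^1_1`-soundness of `τ`;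
2. there is a true `Pi^1_1` sentence `π` such that every `Pi^1_1`-sound set of sentences that proves
   `π` and is defined by an arithmetical formula proves its own `Pi^1_1`-soundness for some
   `Pi^1_1` definition. -/
theorem result (𝒜 : Arithmetization) :
    (∃ T : Set Fm, (∀ φ ∈ T, φ.IsSentence) ∧ (∀ φ, SigmaAC0 φ → Proves T φ) ∧
      Pi11Sound T ∧ (∃ τ : Fm, Pi11Defines τ T ∧ Proves T (𝒜.reflection τ)) ∧
      (∀ φ ∈ T, std.Holds φ) ∧ REPred fun n => ∃ φ ∈ T, φ.code = n) ∧
    ∃ π : Fm, π.IsPi11Sentence ∧ std.Holds π ∧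
      ∀ T : Set Fm, (∀ φ ∈ T, φ.IsSentence) → Pi11Sound T → Proves T π →
        (∃ α : Fm, α.Arithmetical ∧ α.FreeIn {0} ∧ ∀ n : ℕ, SatN n 0 0 α ↔ ∃ φ ∈ T, φ.code = n) →
        ∃ τ : Fm, Pi11Defines τ T ∧ Proves T (𝒜.reflection τ) := by
  obtain ⟨i, θ, htr, hθ⟩ := 𝒜.tr_pi
  refine ⟨?_, PLf 𝒜 i θ, PLf_pi htr hθ, PLf_true htr, fun T hT hS hπ ⟨α, h1, h2, h3⟩ =>
    own htr hθ T hT hS hπ h1 h2 h3⟩
  have hmem : ∀ φ ∈ Th ∪ {ψ | ψ ∈ [PLf 𝒜 i θ]}, φ ∈ Th ∨ φ = PLf 𝒜 i θ := by
    rintro φ (h | h)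
    · exact Or.inl h
    · exact Or.inr (List.mem_singleton.1 h)
  have hsent : ∀ φ ∈ Th ∪ {ψ | ψ ∈ [PLf 𝒜 i θ]}, φ.IsSentence := by
    intro φ hφ
    rcases hmem φ hφ with h | h
    · exact th_sentence φ h
    · rw [h]; exact (PLf_pi htr hθ).2
  have htrue : ∀ φ ∈ Th ∪ {ψ | ψ ∈ [PLf 𝒜 i θ]}, std.Holds φ := by
    intro φ hφ
    rcases hmem φ hφ with h | h
    · exact std_th φ h
    · rw [h]; exact PLf_true htr
  have hsound : Pi11Sound (Th ∪ {ψ | ψ ∈ [PLf 𝒜 i θ]}) := fun φ _ h => h std htrue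
  have hre := th_re [PLf 𝒜 i θ]
  obtain ⟨α, h1, h2, h3⟩ := arith_of_re hre
  refine ⟨Th ∪ {ψ | ψ ∈ [PLf 𝒜 i θ]}, hsent, fun φ hφ M hM => ?_, hsound, ?_, htrue, hre⟩
  · exact th_proves φ hφ M fun ψ hψ => hM ψ (Or.inl hψ)
  · exact own htr hθ _ hsent hsound
      (fun M hM => hM _ (Or.inr (List.mem_singleton.2 rfl))) h1 h2 h3

end Pool.Agent.Results.MP_51f008_lc.OwnSoundness
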